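import Pool.Agent.Y854.GM.Sets
import Pool.Agent.Y854.GM.SetsLog
import Pool.Agent.H951R5.AR.All

/-!
# Real quadratic fields with prime radicand in a sparse sequence: small relations between tiny primes

Let `c > 1` be any real number (for example `c = 100`). For all `α > 0` outside a set of Hausdorff dimension less than
one, a positive proportion of `N / log N` of the integers `⌊α n ^ c⌋`, `n ≤ N`, are primes, and 100% of these primes `p`
(and 100% of the squarefree integers of this form) have the property `GoodAR a p` of the starting file `SmallUnits` for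
every rational `a > 2`: with `B = (log p) ^ a` the units, and more generally all `B`-units, of the real quadratic field
of the square root of `p` are products of powers of elements with tiny factorisations, and these decide whether the
class number is one.
-/

set_option autoImplicit false

namespace Pool.Agent.Results.MP_d0fd9b_nt.SparsePrimes

open Filter Finset NumberField Topology
open Pool.Agent.H951R5.AR (GoodAR)
open scoped Classical

lemma ratio_tendsto (A B : ℕ → ℝ) (hA : ∀ N, 0 ≤ A N) {κ : ℝ} (hκ : 0 < κ)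
    (hB : ∃ N1 : ℕ, ∀ N : ℕ, N1 ≤ N → κ * N / Real.log N ≤ B N)
    (h : ∀ η : ℝ, 0 < η → ∃ N0 : ℕ, ∀ N : ℕ, N0 ≤ N → A N ≤ η * N / Real.log N) :
    Tendsto (fun N => A N / B N) atTop (𝓝 0) := by
  rw [Metric.tendsto_atTop]
  intro ε hε
  obtain ⟨N1, hN1⟩ := hB
  obtain ⟨N0, hN0⟩ := h (ε / 2 * κ) (by positivity)
  refine ⟨max (max N0 N1) 3, fun N hN => ?_⟩
  have h1 := hN0 N (((le_max_left _ _).trans (le_max_left _ _)).trans hN)
  have h2 := hN1 N (((le_max_right _ _).trans (le_max_left _ _)).trans hN)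
  have h3 : 3 ≤ N := (le_max_right _ _).trans hN
  have hl := Pool.Agent.Y854.GM.one_le_log3 h3
  have hNp : (0 : ℝ) < N := by
    have : 0 < N := by omega
    exact_mod_cast this
  have hBp : 0 < B N := lt_of_lt_of_le (by positivity) h2
  rw [Real.dist_eq, sub_zero, abs_of_nonneg (div_nonneg (hA N) hBp.le), div_lt_iff₀ hBp]
  have h4 : ε / 2 * κ * N / Real.log N = ε / 2 * (κ * N / Real.log N) := by ring
  rw [h4] at h1
  have h5 := mul_le_mul_of_nonneg_left h2 (show 0 ≤ ε / 2 by positivity)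
  have h6 : 0 < ε * B N := by positivity
  linarith

lemma lin_tendsto (A : ℕ → ℝ) (hA : ∀ N, 0 ≤ A N)
    (h : ∀ η : ℝ, 0 < η → ∃ N0 : ℕ, ∀ N : ℕ, N0 ≤ N → A N ≤ η * N) :
    Tendsto (fun N : ℕ => A N / N) atTop (𝓝 0) := by
  rw [Metric.tendsto_atTop]
  intro ε hε
  obtain ⟨N0, hN0⟩ := h (ε / 2) (by positivity)
  refine ⟨max N0 1, fun N hN => ?_⟩
  have h1 := hN0 N ((le_max_left _ _).trans hN)
  have hNp : (0 : ℝ) < N := by
    have : 0 < N := lt_of_lt_of_le one_pos ((le_max_right _ _).trans hN)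
    exact_mod_cast this
  rw [Real.dist_eq, sub_zero, abs_of_nonneg (div_nonneg (hA N) hNp.le), div_lt_iff₀ hNp]
  have h6 : 0 < ε * (N : ℝ) := by positivity
  linarith

/-- the bad primes -/
def PB (q : ℚ) : Set ℕ := {p | p.Prime ∧ ¬ GoodAR (q : ℝ) p}

/-- the bad squarefree integers -/
def QB (q : ℚ) : Set ℕ := {d | Squarefree d ∧ ¬ GoodAR (q : ℝ) d}

lemma card_sub (P : ℕ → Prop) [DecidablePred P] (X : ℕ) :
    Nat.card {p : ℕ // p ≤ X ∧ P p} = ((range (X + 1)).filter P).card := by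
  rw [Nat.card_congr (Equiv.subtypeEquivRight (q := fun p => p ∈ (range (X + 1)).filter P) (fun p => by
    rw [mem_filter, mem_range]
    constructor
    · rintro ⟨h1, h2⟩
      exact ⟨by omega, h2⟩
    · rintro ⟨h1, h2⟩
      exact ⟨by omega, h2⟩)), Nat.card_eq_fintype_card, Fintype.card_coe]

lemma PB_up (q : ℚ) (hq : 2 < q) (δ : ℝ) (hδ : 0 < δ) : ∃ X0 : ℕ, ∀ X : ℕ, X0 ≤ X →
    (((Ioc 0 X).filter (fun t => t ∈ PB q)).card : ℝ) ≤ δ * X / Real.log X := by
  have h1 := Pool.Agent.H951R5.AR.finalARP_true (q : ℝ) (by exact_mod_cast hq)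
  obtain ⟨X1, hX1⟩ := (h1.eventually (eventually_lt_nhds (show (0 : ℝ) < δ / 4 by positivity))).exists_forall_of_atTop
  obtain ⟨X2, hX2⟩ := Pool.Agent.Y854.GM.prime_up
  refine ⟨max (max X1 X2) 3, fun X hX => ?_⟩
  have g1 := hX1 X (((le_max_left _ _).trans (le_max_left _ _)).trans hX)
  have g2 := hX2 X (((le_max_right _ _).trans (le_max_left _ _)).trans hX)
  have g4 : 3 ≤ X := (le_max_right _ _).trans hX
  rw [card_sub, card_sub] at g1
  have hpos : (0 : ℝ) < (((range (X + 1)).filter Nat.Prime).card : ℝ) := by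
    have : 2 ∈ (range (X + 1)).filter Nat.Prime := by
      rw [mem_filter, mem_range]
      exact ⟨by omega, Nat.prime_two⟩
    exact_mod_cast Finset.card_pos.mpr ⟨2, this⟩
  rw [div_lt_iff₀ hpos] at g1
  have h2 : (((range (X + 1)).filter Nat.Prime).card : ℝ) ≤ (((Ioc 0 X).filter Nat.Prime).card : ℝ) := by
    have : (range (X + 1)).filter Nat.Prime ⊆ (Ioc 0 X).filter Nat.Prime := by
      intro x hx
      rw [mem_filter, mem_range] at hx
      rw [mem_filter, mem_Ioc]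
      exact ⟨⟨hx.2.pos, by omega⟩, hx.2⟩
    exact_mod_cast Finset.card_le_card this
  have h3 : (Ioc 0 X).filter (fun t => t ∈ PB q) ⊆
      (range (X + 1)).filter (fun p => p.Prime ∧ ¬ GoodAR (q : ℝ) p) := by
    intro p hp
    rw [mem_filter, mem_Ioc] at hp
    rw [mem_filter, mem_range]
    exact ⟨by omega, hp.2⟩
  have h6 : (((Ioc 0 X).filter (fun t => t ∈ PB q)).card : ℝ) ≤
      (((range (X + 1)).filter (fun p => p.Prime ∧ ¬ GoodAR (q : ℝ) p)).card : ℝ) := by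
    exact_mod_cast Finset.card_le_card h3
  have h7 : δ / 4 * (((range (X + 1)).filter Nat.Prime).card : ℝ) ≤ δ / 4 * (2 * X / Real.log X) :=
    mul_le_mul_of_nonneg_left (h2.trans g2) (by positivity)
  have hl := Pool.Agent.Y854.GM.one_le_log3 g4
  have h9 : 0 ≤ δ / 2 * X / Real.log X := by positivity
  have h8 : δ * X / Real.log X = δ / 4 * (2 * X / Real.log X) + δ / 2 * X / Real.log X := by ring
  rw [h8]
  linarith

lemma QB_up (q : ℚ) (hq : 2 < q) (δ : ℝ) (hδ : 0 < δ) : ∃ X0 : ℕ, ∀ X : ℕ, X0 ≤ X →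
    (((Ioc 0 X).filter (fun t => t ∈ QB q)).card : ℝ) ≤ δ * X := by
  have h1 := Pool.Agent.H951R5.AR.finalAR_true (q : ℝ) (by exact_mod_cast hq)
  obtain ⟨X1, hX1⟩ := (h1.eventually (eventually_lt_nhds (show (0 : ℝ) < δ / 2 by positivity))).exists_forall_of_atTop
  obtain ⟨X3, hX3⟩ := exists_nat_ge (4 / δ)
  refine ⟨max X1 (max X3 3), fun X hX => ?_⟩
  have g1 := hX1 X ((le_max_left _ _).trans hX)
  have g3 : X3 ≤ X := ((le_max_left _ _).trans (le_max_right _ _)).trans hX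
  have g4 : 3 ≤ X := ((le_max_right _ _).trans (le_max_right _ _)).trans hX
  have hXp : (0 : ℝ) < X := by
    have : 0 < X := by omega
    exact_mod_cast this
  have g5 : 4 / δ ≤ X := hX3.trans (by exact_mod_cast g3)
  rw [div_le_iff₀ hδ] at g5
  have e0 : Nat.card {d : ℕ // 2 ≤ d ∧ d ≤ X ∧ Squarefree d ∧ ¬ GoodAR (q : ℝ) d} =
      ((Icc 2 X).filter (fun d => Squarefree d ∧ ¬ GoodAR (q : ℝ) d)).card := by
    rw [Nat.card_congr (Equiv.subtypeEquivRight
      (q := fun d => d ∈ (Icc 2 X).filter (fun d => Squarefree d ∧ ¬ GoodAR (q : ℝ) d)) (fun d => by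
        rw [mem_filter, mem_Icc]
        tauto)), Nat.card_eq_fintype_card, Fintype.card_coe]
  rw [e0, div_lt_iff₀ hXp] at g1
  have h3 : (Ioc 0 X).filter (fun t => t ∈ QB q) ⊆
      ((Icc 2 X).filter (fun d => Squarefree d ∧ ¬ GoodAR (q : ℝ) d)) ∪ {1} := by
    intro p hp
    rw [mem_filter, mem_Ioc] at hp
    obtain ⟨⟨h4, h5⟩, h6⟩ := hp
    rw [mem_union, mem_filter, mem_Icc, mem_singleton]
    by_cases h8 : 2 ≤ p
    · left; exact ⟨⟨h8, h5⟩, h6⟩
    · right; omega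
  have h4 := (Finset.card_le_card h3).trans (Finset.card_union_le _ _)
  rw [card_singleton] at h4
  have h6 : (((Ioc 0 X).filter (fun t => t ∈ QB q)).card : ℝ) ≤
      (((Icc 2 X).filter (fun d => Squarefree d ∧ ¬ GoodAR (q : ℝ) d)).card : ℝ) + 1 := by
    exact_mod_cast h4
  linarith

/-- **Theorem.** For every real `c > 1` there is a set `E` of real numbers of Hausdorff dimension less than one
such that for all `α > 0` outside `E`: (1) at least `κ N / log N` of the integers `⌊α n ^ c⌋`, `n ≤ N`, are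
primes, for some `κ > 0` and all large `N`; (2) for every rational `a > 2` the proportion of those `n ≤ N`
with `⌊α n ^ c⌋` prime for which `GoodAR a ⌊α n ^ c⌋` fails tends to zero; (3) for every rational `a > 2`
the proportion of the `n ≤ N` with `⌊α n ^ c⌋` squarefree and not `GoodAR a` tends to zero. -/
theorem result : ∀ c : ℝ, 1 < c → ∃ E : Set ℝ, dimH E < 1 ∧ ∀ α : ℝ, 0 < α → α ∉ E →
    (∃ κ : ℝ, 0 < κ ∧ ∃ N₀ : ℕ, ∀ N : ℕ, N₀ ≤ N →
      κ * N / Real.log N ≤ (((Icc 1 N).filter (fun n : ℕ => (⌊α * (n : ℝ) ^ c⌋₊).Prime)).card : ℝ)) ∧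
    (∀ a : ℚ, 2 < a →
      Tendsto (fun N : ℕ =>
        (((Icc 1 N).filter (fun n : ℕ => (⌊α * (n : ℝ) ^ c⌋₊).Prime ∧ ¬ GoodAR a ⌊α * (n : ℝ) ^ c⌋₊)).card : ℝ) /
          (((Icc 1 N).filter (fun n : ℕ => (⌊α * (n : ℝ) ^ c⌋₊).Prime)).card : ℝ)) atTop (𝓝 0)) ∧
    (∀ a : ℚ, 2 < a →
      Tendsto (fun N : ℕ =>
        (((Icc 1 N).filter (fun n : ℕ => Squarefree ⌊α * (n : ℝ) ^ c⌋₊ ∧
          ¬ GoodAR a ⌊α * (n : ℝ) ^ c⌋₊)).card : ℝ) / N) atTop (𝓝 0)) := by
  intro c hc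
  obtain ⟨E1, hE1, h1⟩ := Pool.Agent.Y854.GM.sets_log c hc (fun k : Option ℚ => k.elim {p : ℕ | p.Prime} PB)
  obtain ⟨E2, hE2, h2⟩ := Pool.Agent.Y854.GM.sets c hc QB
  refine ⟨E1 ∪ E2, ?_, fun α hα hαE => ?_⟩
  · rw [dimH_union]
    exact max_lt hE1 hE2
  have hα1 : α ∉ E1 := fun h => hαE (Or.inl h)
  have hα2 : α ∉ E2 := fun h => hαE (Or.inr h)
  have hprime : ∃ κ : ℝ, 0 < κ ∧ ∃ N₀ : ℕ, ∀ N : ℕ, N₀ ≤ N →
      κ * N / Real.log N ≤ (((Icc 1 N).filter (fun n : ℕ => (⌊α * (n : ℝ) ^ c⌋₊).Prime)).card : ℝ) := by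
    have hpl : ∃ X0 : ℕ, ∀ X : ℕ, X0 ≤ X → (1 / 2 : ℝ) * X / Real.log X ≤
        (((Ioc 0 X).filter (fun t => t ∈ (none : Option ℚ).elim {p : ℕ | p.Prime} PB)).card : ℝ) := by
      obtain ⟨X0, hX0⟩ := Pool.Agent.Y854.GM.prime_low
      refine ⟨X0, fun X hX => (hX0 X hX).trans (le_of_eq ?_)⟩
      congr 2
      ext t
      simp only [mem_filter]
      exact Iff.rfl
    obtain ⟨κ, hκ, N0, h⟩ := (h1 α hα hα1 none (1 / 2)).2 (by norm_num) hpl
    refine ⟨κ, hκ, N0, fun N hN => (h N hN).trans (le_of_eq ?_)⟩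
    congr 2
    ext n
    simp only [mem_filter]
    exact Iff.rfl
  refine ⟨hprime, fun a ha => ?_, fun a ha => ?_⟩
  · obtain ⟨κ, hκ, hlow⟩ := hprime
    refine ratio_tendsto _ _ (fun N => Nat.cast_nonneg _) hκ hlow (fun η hη => ?_)
    obtain ⟨N0, hN0⟩ := (h1 α hα hα1 (some a) (η / 4)).1 (by positivity) (PB_up a ha (η / 4) (by positivity))
      (η / 2) (by positivity)
    refine ⟨N0, fun N hN => ?_⟩
    have h3 := hN0 N hN
    have h4 : 2 * (η / 4) + η / 2 = η := by ring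
    rw [h4] at h3
    refine le_trans ?_ h3
    have h5 : (Icc 1 N).filter (fun n : ℕ => (⌊α * (n : ℝ) ^ c⌋₊).Prime ∧ ¬ GoodAR a ⌊α * (n : ℝ) ^ c⌋₊) ⊆
        (Icc 1 N).filter (fun n : ℕ => ⌊α * (n : ℝ) ^ c⌋₊ ∈ PB a) := by
      intro n hn
      rw [mem_filter] at hn ⊢
      exact ⟨hn.1, hn.2⟩
    exact_mod_cast Finset.card_le_card h5
  · refine lin_tendsto _ (fun N => Nat.cast_nonneg _) (fun η hη => ?_)
    obtain ⟨N0, hN0⟩ := (h2 α hα hα2 a (η / 2) (η / 2) (by positivity)).1 (QB_up a ha (η / 2) (by positivity))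
    refine ⟨N0, fun N hN => ?_⟩
    have h3 := hN0 N hN
    rw [add_halves] at h3
    refine le_trans ?_ h3
    have h5 : (Icc 1 N).filter (fun n : ℕ => Squarefree ⌊α * (n : ℝ) ^ c⌋₊ ∧ ¬ GoodAR a ⌊α * (n : ℝ) ^ c⌋₊) ⊆
        (Icc 1 N).filter (fun n : ℕ => ⌊α * (n : ℝ) ^ c⌋₊ ∈ QB a) := by
      intro n hn
      rw [mem_filter] at hn ⊢
      exact ⟨hn.1, hn.2⟩
    exact_mod_cast Finset.card_le_card h5

end Pool.Agent.Results.MP_d0fd9b_nt.SparsePrimes
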